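import Pool.Agent.LCH.Final

/-!
# MP_3117b7_gt: real and complex hyperbolic spaces, lattices whose form is definite at some other place
-/

namespace Pool.Agent.Results.MP_3117b7_gt.DefinitePlace

open Pool.Agent.LCC Pool.Agent.LCH Matrix

/-- Let `L` be a number field with an involution `c` (possibly trivial), `φ : L → 𝕜` (`𝕜 = ℝ` or `ℂ`) an
embedding under which `c` becomes complex conjugation, `H` a `c`-hermitian matrix over `L` of signature `(n, 1)`
under `φ`, and `Γ₁` a group of isometries of `H` with coefficients in `L`, acting via `φ` on the real or complex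
hyperbolic space of `H`. Suppose that `H` is positive definite at some other place of `L` (or that `Γ₁` is
contracting at some other places, see `GoodPlaces`). Let `Γ₂` be a group of isometries of a real or complex
hyperbolic space, fixing no point at infinity, all of whose lengths are rational multiples of lengths of `Γ₁`. Then
`Γ₂` contains no unipotent element (real case), respectively no vertical unipotent element (complex case), except the
identity. -/
theorem result {L 𝕜 : Type} [Field L] [NumberField L] [RCLike 𝕜] {n : ℕ} (c : L →+* L) (φ : L →+* 𝕜)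
    (hφ : ∀ x, φ (c x) = star (φ x)) (H : Matrix (Fin n) (Fin n) L) (hH : HForm (formOf (H.map φ)))
    (Γ₁ : Subgroup (GL (Fin n) L)) (hΓ₁ : ∀ w ∈ Γ₁, ((w : Matrix (Fin n) (Fin n) L).map c)ᵀ * H * w.1 = H)
    (hgood : GoodPlaces c φ H Γ₁) :
    (∀ (V : Type) [AddCommGroup V] [Module ℝ V] (h : V → V → ℝ) (Γ₂ : Subgroup (V ≃ₗ[ℝ] V)), HForm h →
      (∀ γ ∈ Γ₂, ∀ x y, h (γ x) (γ y) = h x y) → NoBdFix h Γ₂ →
      hlens h (maps Γ₂) ⊆ ratMul (hlens (formOf (H.map φ)) (actOf φ Γ₁)) →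
      ∀ u ∈ Γ₂, IsNilpotent ((u : V →ₗ[ℝ] V) - 1) → u = 1) ∧
    (∀ (V : Type) [AddCommGroup V] [Module ℂ V] (h : V → V → ℂ) (Γ₂ : Subgroup (V ≃ₗ[ℂ] V)), HForm h →
      (∀ γ ∈ Γ₂, ∀ x y, h (γ x) (γ y) = h x y) → NoBdFix h Γ₂ →
      hlens h (maps Γ₂) ⊆ ratMul (hlens (formOf (H.map φ)) (actOf φ Γ₁)) →
      ∀ u ∈ Γ₂, ((u : V →ₗ[ℂ] V) - 1) ^ 2 = 0 → u = 1) := by
  obtain ⟨ψ, hψ⟩ := exists_ext (A := AlgebraicClosure L) ((toC 𝕜).comp φ)
  obtain ⟨r, σ, κ, hκ0, hκ, hS⟩ := exists_places hφ hH hΓ₁ hgood hψ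
  refine ⟨fun V _ _ h Γ₂ hh hΓ₂ hfix hsub u hu hn => ?_, fun V _ _ h Γ₂ hh hΓ₂ hfix hsub u hu hn => ?_⟩
  · refine real_case ψ σ hκ0 hκ hh hΓ₂ hfix (fun ℓ hℓ => hS ℓ ?_ (hsub hℓ)) hu hn
    obtain ⟨g, -, hg⟩ := hℓ
    exact hg.1
  · refine vert_case ψ σ hκ0 hκ hh hΓ₂ hfix (fun ℓ hℓ => hS ℓ ?_ (hsub hℓ)) hu hn
    obtain ⟨g, -, hg⟩ := hℓ
    exact hg.1

end Pool.Agent.Results.MP_3117b7_gt.DefinitePlace
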