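import Pool.Agent.LCG.Gen

/-!
# MP_3117b7_gt: generic surfaces with cusps
-/

namespace Pool.Agent.Results.MP_3117b7_gt.GenericCusped

open Pool.Agent.LCC Pool.Agent.LCG
open scoped MatrixGroups

/-- Let `ℍ / Γ₁` be any compact hyperbolic surface and let `ℍ / Γ₂` be a hyperbolic surface of genus `g` with `n ≥ 1`
cusps, `n` even if `g = 0`, whose invariant trace field has transcendence degree at least `6 g + 2 n - 6` (the
dimension of the Teichmüller space). Then the two surfaces are not length-commensurable. -/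
theorem result (g n : ℕ) (hn : 1 ≤ n) (hgn : 1 ≤ g ∨ Even n) (Γ₁ Γ₂ : Subgroup SL(2, ℝ))
    (hΓ₁ : CompactSurface Γ₁) (hΓ₂ : CuspedSurface g n Γ₂)
    (hgen : ((6 * g + 2 * n - 6 : ℕ) : Cardinal) ≤ Algebra.trdeg ℚ (kf Γ₂)) : ¬ LengthComm Γ₁ Γ₂ := by
  obtain ⟨u, hu, γ, hγ, hu2, hb⟩ := hΓ₂.exists_bb hn hgn
  exact not_lengthComm hΓ₁ (hΓ₂.collapsing hn hgn hgen) hu hγ hu2 hb

end Pool.Agent.Results.MP_3117b7_gt.GenericCusped
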