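import Pool.Agent.LCC.Surf
import Pool.Agent.LCC.Quat

/-!
# MP_3117b7_gt: generic closed surfaces
-/

namespace Pool.Agent.Results.MP_3117b7_gt.GenericSurfaces

open Pool.Agent.LCC
open scoped MatrixGroups

/-- Let `Γ₁` be the group of a closed hyperbolic surface of genus `g ≥ 2` whose invariant trace field has
transcendence degree at least `6 g - 6` (the dimension of the Teichmüller space). Let `Γ₂` be a subgroup of `SL(2, ℝ)`
without fixed point on the boundary, such that all the lengths of `ℍ / Γ₂` are rational multiples of lengths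
of `ℍ / Γ₁` (as when they are length-commensurable). Then `Γ₂` contains no non-trivial unipotent element. -/
theorem result (g : ℕ) (hg : 2 ≤ g) (Γ₁ Γ₂ : Subgroup SL(2, ℝ)) (hΓ₁ : ClosedSurface g Γ₁)
    (hgen : ((6 * g - 6 : ℕ) : Cardinal) ≤ Algebra.trdeg ℚ (kf Γ₁)) (hΓ₂ : NoFix Γ₂)
    (h : lengths Γ₂ ⊆ ratMul (lengths Γ₁)) :
    ∀ u ∈ Γ₂, tr u = 2 → u = 1 := by
  intro u hu hu2
  by_contra hu1
  obtain ⟨γ, hγ, hb⟩ := exists_bb_pos hΓ₂ hu2 hu1
  obtain ⟨σ, hσ⟩ := exists_definite hg hΓ₁ hgen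
  obtain ⟨w, hw, hw2, hsq⟩ := exists_hyperbolic_isSquare h hu hγ hu2 hb sqProp_real σ
  obtain ⟨y, hy⟩ := hsq
  have h1 := hσ w hw
  rw [map_sub, map_pow, map_ofNat] at hy
  have h2 : σ (⟨tr (w ^ 2), tr_mem_kf (sq_mem_sqSub hw)⟩ ^ 2 - 4) = 0 := by
    rw [map_sub, map_pow, map_ofNat]
    nlinarith [mul_self_nonneg y]
  rw [map_eq_zero] at h2
  have h3 : tr (w ^ 2) ^ 2 - 4 = 0 := congrArg Subtype.val h2
  rw [tr_sq] at h3
  have h4 : 2 < tr w ^ 2 - 2 := by
    rw [← sq_abs]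
    nlinarith
  nlinarith

end Pool.Agent.Results.MP_3117b7_gt.GenericSurfaces
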