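import Pool.Agent.LCC.Quat

/-!
# MP_3117b7_gt: surfaces whose invariant quaternion algebra is ramified at some place
-/

namespace Pool.Agent.Results.MP_3117b7_gt.RamifiedSurfaces

open Pool.Agent.LCC
open scoped MatrixGroups

/-- Let `Γ₁`, `Γ₂` be subgroups of `SL(2, ℝ)` such that all the lengths of `ℍ / Γ₂` are rational multiples of lengths
of `ℍ / Γ₁` (as when they are length-commensurable), `Γ₂` without fixed point on the boundary. Suppose that for some embedding of the invariant trace field of `Γ₁` in `ℝ`, or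
in a complete ultrametric field of characteristic `0` and positive residue characteristic, the invariant
quaternion algebra of `Γ₁` becomes a division algebra. Then `Γ₂` contains no non-trivial unipotent element. -/
theorem result (Γ₁ Γ₂ : Subgroup SL(2, ℝ)) (hΓ₂ : NoFix Γ₂) (h : lengths Γ₂ ⊆ ratMul (lengths Γ₁))
    (hram : (∃ σ : kf Γ₁ →+* ℝ, DivAt Γ₁ σ) ∨
      ∃ (E : Type) (_ : NormedField E) (_ : CompleteSpace E) (_ : IsUltrametricDist E) (_ : CharZero E) (p : ℕ),
        p ≠ 0 ∧ ‖(p : E)‖ < 1 ∧ ∃ σ : kf Γ₁ →+* E, DivAt Γ₁ σ) :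
    ∀ u ∈ Γ₂, tr u = 2 → u = 1 := by
  intro u hu hu2
  by_contra hu1
  obtain ⟨γ, hγ, hb⟩ := exists_bb_pos hΓ₂ hu2 hu1
  rcases hram with ⟨σ, hσ⟩ | ⟨E, i1, i2, i3, i4, p, hp0, hp, σ, hσ⟩
  · exact not_divAt h hu hγ hu2 hb sqProp_real σ hσ
  · exact not_divAt h hu hγ hu2 hb (sqProp_ultrametric hp hp0) σ hσ

end Pool.Agent.Results.MP_3117b7_gt.RamifiedSurfaces
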